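import Pool.Agent.Q17.AM.Fin3

/-!
# The numbers in the Alperin–McKay–Navarro conjecture modulo a prime `r`

Blocks are given by their sets of irreducible characters and a valuation ring `O` of `ℂ` containing
`p` in its maximal ideal; `IsBlock`, `IsDefectGroup` and `IsBrauerCorrespondent` are from
`Pool.Agent.H254R3.IN.Defs`.
-/

set_option autoImplicit false

open scoped Classical

namespace Pool.Agent.Results.MP_7f1e7e_al.CongruenceModuloR

open Pool.Agent.H254R3.IN (IsBlock IsDefectGroup IsBrauerCorrespondent)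

/-- the characters of height zero in the block `B` of `G` with defect group `D`: the `p`-part of
`χ(1)` is the `p`-part of `|G : D|` -/
def heightZero (p : ℕ) {G : Type} [Group G] (D : Subgroup G) (B : Set (G → ℂ)) : Set (G → ℂ) :=
  {χ | χ ∈ B ∧ ∃ n : ℕ, (n : ℂ) = χ 1 ∧ n.factorization p = D.index.factorization p}

/-- the set `B` is stable under the automorphism `s` of `ℂ` -/
def Stable {G : Type} (s : ℂ ≃+* ℂ) (B : Set (G → ℂ)) : Prop :=
  ∀ χ : G → ℂ, χ ∈ B ↔ (fun g => s (χ g)) ∈ B

/-- the members of `X` fixed by `s` -/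
def fixed {G : Type} (X : Set (G → ℂ)) (s : ℂ ≃+* ℂ) : Set (G → ℂ) :=
  {χ | χ ∈ X ∧ ∀ g, s (χ g) = χ g}

/-- the number of Galois conjugates of `χ`; for a character it is the degree of `ℚ(χ)` over `ℚ` -/
noncomputable def conjugates {G : Type} (χ : G → ℂ) : ℕ :=
  {ψ : G → ℂ | ∃ s : ℂ ≃+* ℂ, ψ = fun g => s (χ g)}.ncard

/-- the order of the automorphism `s` on the `n`-th roots of unity is prime to `r` -/
def OrderPrimeTo (r n : ℕ) (s : ℂ ≃+* ℂ) : Prop :=
  ∃ j : ℕ, Nat.Coprime j r ∧ ∀ ζ : ℂ, ζ ^ n = 1 → (s ^ j) ζ = ζ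

/-- the automorphisms `s` of `ℂ` such that for some `e` we have `s ζ = ζ ^ (p ^ e)` for all roots of
unity `ζ` of order prime to `p` -/
def navarroGroup (p : ℕ) : Set (ℂ ≃+* ℂ) :=
  {s | ∃ e : ℕ, ∀ n : ℕ, ¬ p ∣ n → ∀ ζ : ℂ, ζ ^ n = 1 → s ζ = ζ ^ (p ^ e)}

theorem navarro_pow {p : ℕ} {s : ℂ ≃+* ℂ} (h : s ∈ navarroGroup p) (u : ℕ) :
    s ^ u ∈ navarroGroup p := by
  obtain ⟨e, he⟩ := h
  induction u with
  | zero =>
      refine ⟨0, fun n _ ζ _ => ?_⟩
      rw [pow_zero, pow_zero, pow_one]
      rfl
  | succ u ih =>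
      obtain ⟨f, hf⟩ := ih
      refine ⟨e + f, fun n hn ζ hζ => ?_⟩
      rw [pow_succ']
      change s ((s ^ u) ζ) = _
      rw [hf n hn ζ hζ, map_pow, he n hn ζ hζ, ← pow_mul, ← pow_add]

/-- the wreath product of `G` with the group `A` in its regular action -/
abbrev WreathRegular (G : Type) [Group G] (A : Type) [Group A] : Type :=
  (A → G) ⋊[mulAutArrow (G := A) (A := A) (M := G)] A

/-- The numbers of those members of the sets `X₁` and `X₂` which are fixed by `s` and have a number of
Galois conjugates prime to `r` (that is a field of values of degree prime to `r` over `ℚ`) are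
congruent modulo `r`. -/
def Congruent {G H : Type} (r : ℕ) (s : ℂ ≃+* ℂ) (X₁ : Set (G → ℂ)) (X₂ : Set (H → ℂ)) : Prop :=
  ({χ | χ ∈ fixed X₁ s ∧ ¬ r ∣ conjugates χ}.ncard : ℤ) ≡
    ({χ | χ ∈ fixed X₂ s ∧ ¬ r ∣ conjugates χ}.ncard : ℤ) [ZMOD r]

/-- **Theorem.** Let `p` and `r ≠ p` be primes. Let `X` be a class of groups closed under isomorphism
and finite direct powers (for instance all groups, or all abelian groups) and let `Y` be a class of
finite groups closed under wreath products with finite abelian groups in their regular action (for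
instance all finite groups, or the groups with nonabelian composition factors in a given set). Let `T`
be a set of automorphisms of `ℂ` which is closed under powers (for instance `navarroGroup p`, see
`navarro_pow`). Suppose that for all groups `G` in `Y`, all `p`-blocks `B` of `G` which are stable under
all automorphisms of `ℂ` and have a defect group `D` in `X`, the Brauer correspondent `b` of `B` in
`N_G(D)` and all `s` in `T` of order prime to `r` on the `|G|`-th roots of unity, the numbers of
characters in `Irr₀(B)` and in `Irr₀(b)` which are fixed by `s` and have a field of values of degree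
prime to `r` are congruent modulo `r`. Then for all groups `G` in `Y`, all `p`-blocks `B` of `G` with a
defect group `D` in `X`, and all `s` in `T` which stabilise `B` and have order prime to `r` on the
`|G|`-th roots of unity, `Irr₀(B)` and `Irr₀(b)` contain the same number of characters fixed by
`s`. -/
theorem result (p r : ℕ) [Fact p.Prime] [Fact r.Prime] (hpr : p ≠ r) (O : ValuationSubring ℂ)
    (hO : (p : ℂ) ∈ O.nonunits) (X Y : ∀ (P : Type) [Group P], Prop)
    (hX : ∀ (P Q : Type) [Group P] [Group Q], Nonempty (P ≃* Q) → X P → X Q)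
    (hX' : ∀ (P : Type) [Group P] (n : ℕ), 1 ≤ n → X P → X (Fin n → P))
    (hY : ∀ (G A : Type) [Group G] [CommGroup A] [Finite G] [Finite A], Y G →
      Y (WreathRegular G A)) :
    (∀ s ∈ navarroGroup p, ∀ u : ℕ, s ^ u ∈ navarroGroup p) ∧
    ∀ T : Set (ℂ ≃+* ℂ), (∀ s ∈ T, ∀ u : ℕ, s ^ u ∈ T) →
      (∀ (G : Type) [Group G] [Finite G], Y G → ∀ (B : Set (G → ℂ)) (D : Subgroup G)
        (b : Set (Subgroup.normalizer (D : Set G) → ℂ)), IsBlock O B → IsDefectGroup p O B D →
        IsBrauerCorrespondent p O D B b → (∀ s : ℂ ≃+* ℂ, Stable s B) → X D →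
        ∀ s ∈ T, OrderPrimeTo r (Nat.card G) s → Congruent r s (heightZero p D B)
          (heightZero p (D.subgroupOf (Subgroup.normalizer (D : Set G))) b)) →
      ∀ (G : Type) [Group G] [Finite G], Y G → ∀ (B : Set (G → ℂ)) (D : Subgroup G)
        (b : Set (Subgroup.normalizer (D : Set G) → ℂ)), IsBlock O B → IsDefectGroup p O B D →
        IsBrauerCorrespondent p O D B b → X D →
        ∀ s ∈ T, Stable s B → OrderPrimeTo r (Nat.card G) s →
          (fixed (heightZero p D B) s).ncard =
            (fixed (heightZero p (D.subgroupOf (Subgroup.normalizer (D : Set G))) b) s).ncard := by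
  refine ⟨fun s hs u => navarro_pow hs u, ?_⟩
  intro T hT h G _ _ hG B D b hB hD hb hXD s hs hsB hR
  have hF : Fintype G := Fintype.ofFinite G
  refine Pool.Agent.Q17.AM.amn_r (r := r) hpr hO T hT X Y ⟨hX, hX'⟩ hY ?_ ⟨hB, hD, hb⟩ hXD hG hs
    hsB hR
  rintro G _ _ B D b ⟨h4, h5, h6⟩ h7 h8 h9 s hs hR
  exact (h G h9 B D b h4 h5 h6 h7 h8 s hs hR).symm.dvd

end Pool.Agent.Results.MP_7f1e7e_al.CongruenceModuloR
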