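import Pool.Agent.Q21.CO.Deg

/-!
# The Alperin–McKay–Navarro conjecture for blocks with a self-centralising coset

A generalisation of Glauberman's correspondence to cosets of arbitrary normal subgroups.
-/

namespace Pool.Agent.Results.MP_7f1e7e_al.CosetCorrespondence

open Pool.Agent.H254R3.IN

/-- The characters of height zero in the `p`-block `B` of `G` with defect group `D`: the
`χ ∈ B` with `χ(1)_p = |G : D|_p`. -/
def Irr0 (p : ℕ) {G : Type} [Group G] (D : Subgroup G) (B : Set (G → ℂ)) : Set (G → ℂ) :=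
  {χ | χ ∈ B ∧ ∃ n : ℕ, (n : ℂ) = χ 1 ∧ n.factorization p = D.index.factorization p}

open scoped Classical in
/-- Let `B` be a `p`-block of the finite group `G` with defect group `D` and Brauer correspondent
`b` in `N_G(D)`. Suppose that `N` is a proper normal subgroup of `G` and `y ∈ D` with `G = N⟨y⟩`,
and that `N_G(D)` contains a Sylow `p`-subgroup `P` of `G` and the centraliser in `G` of every
element of `P ∩ yN`. Then there is a bijection `f : Irr_0(B) → Irr_0(b)` such that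
* `f(χ^σ) = f(χ)^σ` for every field automorphism `σ` of `ℂ` with `χ^σ ∈ B`;
* a field automorphism `σ` of `ℂ` fixes `χ` if and only if it fixes the restriction of `χ` to
  `N_G(D)`, if and only if it fixes `f(χ)`;
* for some sign `ε`, `χ = ε f(χ)` on `N_G(D) ∩ yN`, and
  `χ(1)_{p'} ≡ ε |G : N_G(D)| f(χ)(1)_{p'}` modulo `p`. -/
theorem result (G : Type) [Group G] [Finite G] (p : ℕ) [Fact p.Prime]
    (O : ValuationSubring ℂ) (hO : (p : ℂ) ∈ O.nonunits)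
    (N D : Subgroup G) (hN : N.Normal) (hNt : N ≠ ⊤)
    (y : G) (hy : y ∈ D) (hgen : N ⊔ Subgroup.zpowers y = ⊤)
    (P : Sylow p G) (hP : (P : Subgroup G) ≤ Subgroup.normalizer (D : Set G))
    (hC : ∀ x ∈ P, y⁻¹ * x ∈ N →
      Subgroup.centralizer ({x} : Set G) ≤ Subgroup.normalizer (D : Set G))
    (B : Set (G → ℂ)) (b : Set (Subgroup.normalizer (D : Set G) → ℂ))
    (hB : IsBlock O B) (hD : IsDefectGroup p O B D) (hb : IsBrauerCorrespondent p O D B b) :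
    ∃ f : Irr0 p D B ≃ Irr0 p (D.subgroupOf (Subgroup.normalizer (D : Set G))) b,
      (∀ (σ : ℂ ≃+* ℂ) (χ : Irr0 p D B), (fun g => σ ((χ : G → ℂ) g)) ∈ B →
        ∃ h : (fun g => σ ((χ : G → ℂ) g)) ∈ Irr0 p D B,
          (f ⟨fun g => σ ((χ : G → ℂ) g), h⟩ : Subgroup.normalizer (D : Set G) → ℂ) =
            fun k => σ ((f χ : Subgroup.normalizer (D : Set G) → ℂ) k)) ∧
      (∀ (σ : ℂ ≃+* ℂ) (χ : Irr0 p D B),
        ((∀ k : Subgroup.normalizer (D : Set G), σ ((χ : G → ℂ) k) = (χ : G → ℂ) k) ↔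
          ∀ g : G, σ ((χ : G → ℂ) g) = (χ : G → ℂ) g) ∧
        ((∀ k : Subgroup.normalizer (D : Set G),
            σ ((f χ : Subgroup.normalizer (D : Set G) → ℂ) k) = (f χ : _ → ℂ) k) ↔
          ∀ g : G, σ ((χ : G → ℂ) g) = (χ : G → ℂ) g)) ∧
      ∀ χ : Irr0 p D B, ∃ ε : ℤ, (ε = 1 ∨ ε = -1) ∧
        (∀ k : Subgroup.normalizer (D : Set G), y⁻¹ * (k : G) ∈ N →
          (χ : G → ℂ) k = ε * (f χ : Subgroup.normalizer (D : Set G) → ℂ) k) ∧
        ∀ n m : ℕ, (n : ℂ) = (χ : G → ℂ) 1 →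
          (m : ℂ) = (f χ : Subgroup.normalizer (D : Set G) → ℂ) 1 →
          (pPrimePart p n : ℤ) ≡
            ε * ((Subgroup.normalizer (D : Set G)).index * pPrimePart p m) [ZMOD p] := by
  have := Fintype.ofFinite G
  have hDp : IsPGroup p D := defect_pgroup hD
  -- `D ≤ P`
  have hDn : (D.subgroupOf (Subgroup.normalizer (D : Set G))).Normal :=
    Subgroup.normal_in_normalizer
  have hyP : y ∈ P := by
    have h1 := (Pool.Agent.H254R3.IN.pgroup_DD hDp).le_sylow_of_normal (P.subtype hP)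
    have h2 : (⟨y, le_NN D hy⟩ : NN D) ∈ ((P.subtype hP : Sylow p (NN D)) : Subgroup (NN D)) :=
      h1 (by rw [Subgroup.mem_subgroupOf]; exact hy)
    rw [Sylow.coe_subtype, Subgroup.mem_subgroupOf] at h2
    exact h2
  have e : Pool.Agent.Q21.CO.BD p O N D y P B b :=
    { hpO := hO
      d := { hN := hN, hNt := hNt, gen := hgen, hyP := hyP, hPH := hP, hC := hC }
      hy := hy
      hB := hB
      hD := hD
      hb := hb }
  obtain ⟨l, s, hl, _, h1, h2, h3, h4, h5⟩ := e.rel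
  have hly : ∀ g : G, y⁻¹ * g ∈ N → l g = l y := fun g hg =>
    (Pool.Agent.Q21.CO.Dat.l_iff hl g).mpr hg
  -- heights
  have hB0 : ∀ χ : G → ℂ, χ ∈ Irr0 p D B ↔ χ ∈ B ∧ red O (uu D χ) ≠ 0 := by
    intro χ
    constructor
    · rintro ⟨h6, h7⟩
      exact ⟨h6, (Pool.Agent.Y62.height_iff hO (hB.irr χ h6) (uu_mem hO hB hD h6)).mpr h7⟩
    · rintro ⟨h6, h7⟩
      exact ⟨h6, (Pool.Agent.Y62.height_iff hO (hB.irr χ h6) (uu_mem hO hB hD h6)).mp h7⟩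
  have hb0 : ∀ ψ : NN D → ℂ, ψ ∈ Irr0 p (DD D) b ↔ ψ ∈ b ∧ red O (uu (DD D) ψ) ≠ 0 := by
    intro ψ
    constructor
    · rintro ⟨h6, h7⟩
      exact ⟨h6, (Pool.Agent.Y62.height_iff hO (hb.1.irr ψ h6) (uu_mem hO hb.1 hb.2.1 h6)).mpr h7⟩
    · rintro ⟨h6, h7⟩
      exact ⟨h6, (Pool.Agent.Y62.height_iff hO (hb.1.irr ψ h6) (uu_mem hO hb.1 hb.2.1 h6)).mp h7⟩
  -- the map
  have hex : ∀ χ : Irr0 p D B, ∃ ψ : Irr0 p (DD D) b,
      Pool.Agent.Q21.CO.Rel p l (l y) (NN D) (χ : G → ℂ) (ψ : NN D → ℂ) := by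
    intro χ
    obtain ⟨ψ, h6, h7, h8⟩ := h1 χ ((hB0 χ).mp χ.2).1 ((hB0 χ).mp χ.2).2
    exact ⟨⟨ψ, (hb0 ψ).mpr ⟨h6, h7⟩⟩, h8⟩
  choose F hF using hex
  have hbij : Function.Bijective F := by
    constructor
    · intro χ χ' h
      have h6 := hF χ
      rw [h] at h6
      exact Subtype.ext (h4 χ ((hB0 χ).mp χ.2).1 ((hB0 χ).mp χ.2).2 χ'
        (hB.irr _ ((hB0 χ').mp χ'.2).1) (F χ') (hb.1.irr _ ((hb0 _).mp (F χ').2).1) h6 (hF χ'))
    · intro ψ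
      obtain ⟨χ, h6, h7, h8⟩ := h2 ψ ((hb0 ψ).mp ψ.2).1 ((hb0 ψ).mp ψ.2).2
      refine ⟨⟨χ, (hB0 χ).mpr ⟨h6, h7⟩⟩, ?_⟩
      exact Subtype.ext (h3 χ h6 h7 _ _ (hb.1.irr _ ((hb0 _).mp (F _).2).1)
        (hb.1.irr _ ((hb0 ψ).mp ψ.2).1) (hF ⟨χ, (hB0 χ).mpr ⟨h6, h7⟩⟩) h8)
  refine ⟨Equiv.ofBijective F hbij, ?_, ?_, ?_⟩
  · intro σ χ hσ
    have hχ := (hB0 χ).mp χ.2
    have hmem : (fun g => σ ((χ : G → ℂ) g)) ∈ Irr0 p D B := by
      refine ⟨hσ, ?_⟩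
      obtain ⟨n, hn, hn'⟩ := χ.2.2
      refine ⟨n, ?_, hn'⟩
      change (n : ℂ) = σ ((χ : G → ℂ) 1)
      rw [← hn, map_natCast]
    refine ⟨hmem, ?_⟩
    have hχ' := (hB0 _).mp hmem
    exact h3 _ hχ'.1 hχ'.2 _ _ (hb.1.irr _ ((hb0 _).mp (F ⟨_, hmem⟩).2).1)
      (Pool.Agent.Y824.GA.S_IRR _ σ _ (hb.1.irr _ ((hb0 _).mp (F χ).2).1))
      (hF ⟨_, hmem⟩) ((hF χ).gal σ)
  · intro σ χ
    have hχ := (hB0 χ).mp χ.2
    have hχi := hB.irr _ hχ.1
    have hψ := (hb0 _).mp (F χ).2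
    have hψi := hb.1.irr _ hψ.1
    have hχσ : IsIrr (fun g => σ ((χ : G → ℂ) g)) := Pool.Agent.Y824.GA.S_IRR _ σ _ hχi
    refine ⟨⟨fun h6 => ?_, fun h6 k => h6 k⟩, ⟨fun h6 => ?_, fun h6 => ?_⟩⟩
    · obtain ⟨ε, hε, hval⟩ := hF χ
      have h7 := h4 _ hχ.1 hχ.2 _ hχσ _ hψi ⟨ε, hε, hval⟩ ⟨ε, hε, fun k hk => by
        change σ ((χ : G → ℂ) k) = _
        rw [h6 k, hval k hk]⟩
      exact fun g => (congrFun h7 g).symm
    · have h8 : (fun k => σ ((F χ : NN D → ℂ) k)) = (F χ : NN D → ℂ) := funext h6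
      have h9 := (hF χ).gal σ
      rw [h8] at h9
      have h7 := h4 _ hχ.1 hχ.2 _ hχσ _ hψi (hF χ) h9
      exact fun g => (congrFun h7 g).symm
    · have h8 : (fun g => σ ((χ : G → ℂ) g)) = (χ : G → ℂ) := funext h6
      have h9 := (hF χ).gal σ
      rw [h8] at h9
      have h7 := h3 _ hχ.1 hχ.2 _ _ hψi (Pool.Agent.Y824.GA.S_IRR _ σ _ hψi) (hF χ) h9
      exact fun k => (congrFun h7 k).symm
  · intro χ
    have hχ := (hB0 χ).mp χ.2
    have hψ := (hb0 _).mp (F χ).2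
    obtain ⟨ε, hε, hval⟩ := hF χ
    refine ⟨ε, ?_, fun k hk => hval k (hly k hk), fun n m hn hm => ?_⟩
    · rcases hε with h6 | h6
      · exact Or.inl h6
      · exact Or.inr h6.1
    · have hred := h5 χ hχ.1 (F χ) hψ.1 hχ.2 ε hval
      obtain ⟨n', hn', hfn⟩ := χ.2.2
      obtain ⟨m', hm', hfm⟩ := (F χ).2.2
      have hnn : n = n' := by exact_mod_cast hn.trans hn'.symm
      have hmm : m = m' := by exact_mod_cast hm.trans hm'.symm
      subst hnn hmm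
      have hn0 : n ≠ 0 := by
        rintro rfl
        apply (hB.irr _ hχ.1).one_ne
        rw [← hn, Nat.cast_zero]
      have hm0 : m ≠ 0 := by
        rintro rfl
        apply (hb.1.irr _ hψ.1).one_ne
        exact hm.symm.trans Nat.cast_zero
      exact Pool.Agent.Q21.CO.deg_cong hO hP (uu_mem hO hB hD hχ.1) (uu_mem hO hb.1 hb.2.1 hψ.1)
        hred hn hm hn0 hm0 hfn hfm

end Pool.Agent.Results.MP_7f1e7e_al.CosetCorrespondence
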