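import Pool.Agent.Q17.RB.Amn

/-!
# The Alperin–McKay–Navarro conjecture: reduction to Galois-stable blocks

Blocks are given by their sets of irreducible characters and a valuation ring `O` of `ℂ` containing
`p` in its maximal ideal; `IsBlock`, `IsDefectGroup` and `IsBrauerCorrespondent` are from
`Pool.Agent.H254R3.IN.Defs`.
-/

set_option autoImplicit false

open scoped Classical

namespace Pool.Agent.Results.MP_7f1e7e_al.RationalBlocks

open Pool.Agent.H254R3.IN (IsBlock IsDefectGroup IsBrauerCorrespondent)

/-- the characters of height zero in the block `B` of `G` with defect group `D`: the `p`-part of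
`χ(1)` is the `p`-part of `|G : D|` -/
def heightZero (p : ℕ) {G : Type} [Group G] (D : Subgroup G) (B : Set (G → ℂ)) : Set (G → ℂ) :=
  {χ | χ ∈ B ∧ ∃ n : ℕ, (n : ℂ) = χ 1 ∧ n.factorization p = D.index.factorization p}

/-- the set `B` is stable under the automorphism `s` of `ℂ` -/
def Stable {G : Type} (s : ℂ ≃+* ℂ) (B : Set (G → ℂ)) : Prop :=
  ∀ χ : G → ℂ, χ ∈ B ↔ (fun g => s (χ g)) ∈ B

/-- the automorphisms `s` of `ℂ` such that for some `e` we have `s ζ = ζ ^ (p ^ e)` for all roots of
unity `ζ` of order prime to `p` -/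
def navarroGroup (p : ℕ) : Set (ℂ ≃+* ℂ) :=
  {s | ∃ e : ℕ, ∀ n : ℕ, ¬ p ∣ n → ∀ ζ : ℂ, ζ ^ n = 1 → s ζ = ζ ^ (p ^ e)}

/-- There is a bijection from `Irr₀(B)` onto `Irr₀(b)` which commutes with all automorphisms in `T`
which stabilise `B`. -/
def Equivariant {G : Type} [Group G] (p : ℕ) (T : Set (ℂ ≃+* ℂ)) (D : Subgroup G)
    (B : Set (G → ℂ)) (b : Set (Subgroup.normalizer (D : Set G) → ℂ)) : Prop :=
  ∃ e : heightZero p D B ≃ heightZero p (D.subgroupOf (Subgroup.normalizer (D : Set G))) b,
    ∀ s ∈ T, Stable s B → ∀ χ χ' : heightZero p D B, (χ'.1 = fun g => s (χ.1 g)) →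
      (e χ').1 = fun g => s ((e χ).1 g)

/-- the wreath product of `G` with the group `A` in its regular action -/
abbrev WreathRegular (G : Type) [Group G] (A : Type) [Group A] : Type :=
  (A → G) ⋊[mulAutArrow (G := A) (A := A) (M := G)] A

/-- **Theorem.** Let `p` be a prime. Let `X` be a class of groups closed under isomorphism and finite
direct powers (for instance all groups, or all abelian groups) and let `Y` be a class of finite groups
closed under wreath products with finite abelian groups in their regular action (for instance all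
finite groups, or the groups with nonabelian composition factors in a given set).
(1) Let `T` be a set of automorphisms of `ℂ` which contains the identity and is closed under products.
Suppose that for all groups `G` in `Y` and all `p`-blocks `B` of `G` which are stable under all
automorphisms of `ℂ` and have a defect group `D` in `X` there is a bijection from `Irr₀(B)` onto
`Irr₀(b)` which commutes with `T`, where `b` is the Brauer correspondent of `B` in `N_G(D)`. Then for
all groups `G` in `Y` and all `p`-blocks `B` of `G` with a defect group `D` in `X` there is a bijection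
from `Irr₀(B)` onto `Irr₀(b)` which commutes with the members of `T` stabilising `B`.
(2) In particular the Alperin–McKay–Navarro conjecture (`T = navarroGroup p`) holds for all these
blocks if it holds for those which are stable under all automorphisms of `ℂ`. -/
theorem result (p : ℕ) [Fact p.Prime] (O : ValuationSubring ℂ) (hO : (p : ℂ) ∈ O.nonunits)
    (X Y : ∀ (P : Type) [Group P], Prop)
    (hX : ∀ (P Q : Type) [Group P] [Group Q], Nonempty (P ≃* Q) → X P → X Q)
    (hX' : ∀ (P : Type) [Group P] (n : ℕ), 1 ≤ n → X P → X (Fin n → P))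
    (hY : ∀ (G A : Type) [Group G] [CommGroup A] [Finite G] [Finite A], Y G →
      Y (WreathRegular G A)) :
    (∀ T : Set (ℂ ≃+* ℂ), 1 ∈ T → (∀ s ∈ T, ∀ t ∈ T, s * t ∈ T) →
      (∀ (G : Type) [Group G] [Finite G], Y G → ∀ (B : Set (G → ℂ)) (D : Subgroup G)
        (b : Set (Subgroup.normalizer (D : Set G) → ℂ)), IsBlock O B → IsDefectGroup p O B D →
        IsBrauerCorrespondent p O D B b → (∀ s : ℂ ≃+* ℂ, Stable s B) → X D →
        Equivariant p T D B b) →
      ∀ (G : Type) [Group G] [Finite G], Y G → ∀ (B : Set (G → ℂ)) (D : Subgroup G)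
        (b : Set (Subgroup.normalizer (D : Set G) → ℂ)), IsBlock O B → IsDefectGroup p O B D →
        IsBrauerCorrespondent p O D B b → X D → Equivariant p T D B b) ∧
    ((∀ (G : Type) [Group G] [Finite G], Y G → ∀ (B : Set (G → ℂ)) (D : Subgroup G)
        (b : Set (Subgroup.normalizer (D : Set G) → ℂ)), IsBlock O B → IsDefectGroup p O B D →
        IsBrauerCorrespondent p O D B b → (∀ s : ℂ ≃+* ℂ, Stable s B) → X D →
        Equivariant p (navarroGroup p) D B b) →
      ∀ (G : Type) [Group G] [Finite G], Y G → ∀ (B : Set (G → ℂ)) (D : Subgroup G)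
        (b : Set (Subgroup.normalizer (D : Set G) → ℂ)), IsBlock O B → IsDefectGroup p O B D →
        IsBrauerCorrespondent p O D B b → X D → Equivariant p (navarroGroup p) D B b) := by
  have key : ∀ T : Set (ℂ ≃+* ℂ), 1 ∈ T → (∀ s ∈ T, ∀ t ∈ T, s * t ∈ T) →
      (∀ (G : Type) [Group G] [Finite G], Y G → ∀ (B : Set (G → ℂ)) (D : Subgroup G)
        (b : Set (Subgroup.normalizer (D : Set G) → ℂ)), IsBlock O B → IsDefectGroup p O B D →
        IsBrauerCorrespondent p O D B b → (∀ s : ℂ ≃+* ℂ, Stable s B) → X D →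
        Equivariant p T D B b) →
      ∀ (G : Type) [Group G] [Finite G], Y G → ∀ (B : Set (G → ℂ)) (D : Subgroup G)
        (b : Set (Subgroup.normalizer (D : Set G) → ℂ)), IsBlock O B → IsDefectGroup p O B D →
        IsBrauerCorrespondent p O D B b → X D → Equivariant p T D B b := by
    intro T h1 hmul h G _ _ hG B D b hB hD hb hXD
    have hF : Fintype G := Fintype.ofFinite G
    obtain ⟨e, he⟩ := Pool.Agent.Q17.RB.amn_rat (p := p) (O := O) hO h1 hmul
      (fun G _ D => (Finite G → Y G) ∧ X D) (fun G _ _ D A _ _ h => by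
        refine ⟨fun _ => hY G A (h.1 inferInstance), ?_⟩
        exact hX _ _ ⟨(Pool.Agent.Q17.AM.eDa D).symm⟩
          (Pool.Agent.Q17.AM.Cl.fun (X := X) ⟨hX, hX'⟩ h.2))
      (fun G _ _ B D b hd hst hc => by
        obtain ⟨h4, h5, h6⟩ := hd
        obtain ⟨e, he⟩ := h G (hc.1 inferInstance) B D b h4 h5 h6 hst hc.2
        exact ⟨e, fun s hs => he s hs (hst s)⟩)
      (b := b) ⟨hB, hD, hb⟩ ⟨fun _ => hG, hXD⟩
    exact ⟨e, fun s hs hst => he s ⟨hs, hst⟩⟩
  refine ⟨key, key (navarroGroup p) ⟨0, fun n _ ζ _ => ?_⟩ ?_⟩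
  · change ζ = _
    rw [pow_zero, pow_one]
  · rintro s ⟨e, he⟩ t ⟨e', he'⟩
    refine ⟨e + e', fun n hn ζ hζ => ?_⟩
    change s (t ζ) = _
    rw [he' n hn ζ hζ, map_pow, he n hn ζ hζ, ← pow_mul, ← pow_add]

end Pool.Agent.Results.MP_7f1e7e_al.RationalBlocks
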