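import Pool.Agent.Q17.TC.B3
import Pool.Agent.Q222.TC.TBC

/-!
# The Alperin–McKay–Navarro conjecture relative to a normal subgroup

`N` is a normal subgroup of an arbitrary finite group `G` and `y` is a `p`-element of order `p`
modulo `N` which is central modulo `N`. The hypothesis is on the centralisers in `N` of the
`p`-elements of the coset `yN` only. One bijection between characters of `G` and of `H` works for
all blocks with a defect group which meets `N⟨y⟩` outside `N`.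
-/

open scoped Classical
open Pool.Agent.H254R3.IN

namespace Pool.Agent.Results.MP_7f1e7e_al.RelativeBlocks

/-- The irreducible characters of the normal subgroup `N` which are invariant under `y`. -/
def Inv {G : Type} [Group G] (N : Subgroup G) [N.Normal] (y : G) : Type :=
  {θ : N → ℂ // IsIrr θ ∧ ∀ n : N, θ (MulAut.conjNormal y n) = θ n}

/-- The character `χ` of `G` lies over the irreducible character `θ` of `N`: their inner product on
`N` is not zero. -/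
def LiesOver {G : Type} [Group G] [Fintype G] (N : Subgroup G) (χ : G → ℂ) (θ : N → ℂ) : Prop :=
  ∑ n : N, χ n * θ n⁻¹ ≠ 0

/-- The irreducible characters of `G` which lie over a `y`-invariant irreducible character of
`N`. -/
def Above {G : Type} [Group G] [Fintype G] (N : Subgroup G) [N.Normal] (y : G) : Type :=
  {χ : G → ℂ // IsIrr χ ∧ ∃ θ : Inv N y, LiesOver N χ θ.1}

/-- The hypotheses on `(G, N, y, P, H)`: `y ∈ P` has order `p` modulo `N` and is central modulo `N`;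
`H` contains the Sylow `p`-subgroup `P` and `C_N(x)` for all `x ∈ P ∩ yN`, and `G = NH`. -/
def Hyp {G : Type} [Group G] (p : ℕ) (N : Subgroup G) (y : G) (P : Sylow p G) (H : Subgroup G) :
    Prop :=
  (y ∈ P ∧ y ∉ N ∧ y ^ p ∈ N ∧ ∀ g : G, g * y * g⁻¹ * y⁻¹ ∈ N) ∧
    (P : Subgroup G) ≤ H ∧ (∀ g : G, ∃ n ∈ N, ∃ h ∈ H, g = n * h) ∧
    ∀ x ∈ P, y⁻¹ * x ∈ N → ∀ n ∈ N, Commute n x → n ∈ H

/-- `θ` (a character of `N`) and `η` (a character of `N ∩ H`) correspond: they have irreducible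
extensions `θ'`, `η'` to `N⟨y⟩` and `N⟨y⟩ ∩ H` which agree up to a sign `ε` outside `N`. -/
def Correspond {G : Type} [Group G] (N H : Subgroup G) (y : G) (θ : N → ℂ)
    (η : N.subgroupOf H → ℂ) : Prop :=
  ∃ (θ' : (N ⊔ Subgroup.zpowers y : Subgroup G) → ℂ)
    (η' : (N ⊔ Subgroup.zpowers y).subgroupOf H → ℂ) (ε : ℤ), IsIrr θ' ∧ IsIrr η' ∧
    (∀ (n : N) (hn : (n : G) ∈ N ⊔ Subgroup.zpowers y), θ' ⟨n, hn⟩ = θ n) ∧
    (∀ (m : N.subgroupOf H) (hm : (m : H) ∈ (N ⊔ Subgroup.zpowers y).subgroupOf H),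
      η' ⟨m, hm⟩ = η m) ∧ (ε = 1 ∨ ε = -1) ∧
    ∀ (h : H) (hk : (h : G) ∈ N ⊔ Subgroup.zpowers y)
      (hk' : h ∈ (N ⊔ Subgroup.zpowers y).subgroupOf H), (h : G) ∉ N →
        θ' ⟨h, hk⟩ = ε * η' ⟨h, hk'⟩

/-- The bijections `F` and `f` are compatible: `χ` lies over `θ` if and only if `f χ` lies over
`F θ`, and then `χ(1) / θ(1) = (f χ)(1) / (F θ)(1)`. -/
def Compatible {G : Type} [Group G] [Fintype G] {N H : Subgroup G} [N.Normal] {y : G}
    {hyH : y ∈ H} (F : Inv N y ≃ Inv (N.subgroupOf H) ⟨y, hyH⟩)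
    (f : Above N y ≃ Above (N.subgroupOf H) ⟨y, hyH⟩) : Prop :=
  (∀ χ θ, LiesOver N χ.1 θ.1 ↔ LiesOver (N.subgroupOf H) (f χ).1 (F θ).1) ∧
    ∀ χ θ, LiesOver N χ.1 θ.1 → (f χ).1 1 / (F θ).1 1 = χ.1 1 / θ.1 1

/-- The automorphism `α` of `G` stabilises `N`, `H` and the coset `yN`. -/
def Stabilises {G : Type} [Group G] (N H : Subgroup G) (y : G) (α : G ≃* G) : Prop :=
  (∀ g, α g ∈ N ↔ g ∈ N) ∧ (∀ g, α g ∈ H ↔ g ∈ H) ∧ y⁻¹ * α y ∈ N

/-- `F (σ ∘ θ ∘ α) = σ ∘ F θ ∘ α` for all automorphisms `σ` of `ℂ` and all automorphisms `α` of `G`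
which stabilise `N`, `H` and `yN`. -/
def EquivariantN {G : Type} [Group G] {N H : Subgroup G} [N.Normal] {y : G} {hyH : y ∈ H}
    (F : Inv N y ≃ Inv (N.subgroupOf H) ⟨y, hyH⟩) : Prop :=
  ∀ (σ : ℂ ≃+* ℂ) (α : G ≃* G), Stabilises N H y α → ∀ θ θ' : Inv N y,
    (∀ n n' : N, (n' : G) = α n → θ'.1 n = σ (θ.1 n')) →
      ∀ m m' : N.subgroupOf H, ((m' : H) : G) = α (m : H) → (F θ').1 m = σ ((F θ).1 m')

/-- `f (σ ∘ χ ∘ α) = σ ∘ f χ ∘ α` for all automorphisms `σ` of `ℂ` and all automorphisms `α` of `G`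
which stabilise `N`, `H` and `yN`. -/
def Equivariant {G : Type} [Group G] [Fintype G] {N H : Subgroup G} [N.Normal] {y : G}
    {hyH : y ∈ H} (f : Above N y ≃ Above (N.subgroupOf H) ⟨y, hyH⟩) : Prop :=
  ∀ (σ : ℂ ≃+* ℂ) (α : G ≃* G), Stabilises N H y α → ∀ χ χ' : Above N y,
    (∀ g, χ'.1 g = σ (χ.1 (α g))) → ∀ k k' : H, (k' : G) = α k → (f χ').1 k = σ ((f χ).1 k')

/-- `θ` and `F θ` correspond for all `θ`. -/
def Corresponding {G : Type} [Group G] {N H : Subgroup G} [N.Normal] {y : G} {hyH : y ∈ H}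
    (F : Inv N y ≃ Inv (N.subgroupOf H) ⟨y, hyH⟩) : Prop :=
  ∀ θ, Correspond N H y θ.1 (F θ).1

/-- The characters of height zero in the `p`-block `B` of `G` with defect group `D`: the
`χ ∈ B` with `χ(1)_p = |G : D|_p`. -/
def Irr0 (p : ℕ) {G : Type} [Group G] (D : Subgroup G) (B : Set (G → ℂ)) : Set (G → ℂ) :=
  {χ | χ ∈ B ∧ ∃ n : ℕ, (n : ℂ) = χ 1 ∧ n.factorization p = D.index.factorization p}

/-- The set `b₀` of characters of `N_G(D)` as a set of characters of `N_H(D)`, if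
`N_G(D) ≤ H`. -/
def lift {G : Type} [Group G] (H D : Subgroup G)
    (b₀ : Set (Subgroup.normalizer (D : Set G) → ℂ)) :
    Set (Subgroup.normalizer ((D.subgroupOf H : Subgroup H) : Set H) → ℂ) :=
  {θ | ∃ θ₀ ∈ b₀, ∀ (x : Subgroup.normalizer ((D.subgroupOf H : Subgroup H) : Set H))
    (x' : Subgroup.normalizer (D : Set G)), ((x : H) : G) = x' → θ x = θ₀ x'}

/-- `B` is a `p`-block of `G` and `b` is a `p`-block of `H`, both have the defect group `D ≤ H`,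
which contains an element of `N⟨y⟩` outside `N`, and the same Brauer correspondent `b₀` in
`N_G(D) = N_H(D)`. -/
def Blocks {G : Type} [Group G] (p : ℕ) (O : ValuationSubring ℂ) (N : Subgroup G) (y : G)
    (H D : Subgroup G) (B : Set (G → ℂ)) (b : Set (H → ℂ))
    (b₀ : Set (Subgroup.normalizer (D : Set G) → ℂ)) : Prop :=
  (p : ℂ) ∈ O.nonunits ∧ D ≤ H ∧ (∃ z ∈ D, z ∈ N ⊔ Subgroup.zpowers y ∧ z ∉ N) ∧
    (IsBlock O B ∧ IsDefectGroup p O B D ∧ IsBrauerCorrespondent p O D B b₀) ∧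
    IsBlock O b ∧ IsDefectGroup p O b (D.subgroupOf H) ∧
      IsBrauerCorrespondent p O (D.subgroupOf H) b (lift H D b₀)

/-- `f` restricts to a bijection from `Irr_0(B)` onto `Irr_0(b)` for all blocks `B`, `b` as in
`Blocks`. -/
def BlockWise {G : Type} [Group G] [Fintype G] {N H : Subgroup G} [N.Normal] {y : G}
    {hyH : y ∈ H} (p : ℕ) (f : Above N y ≃ Above (N.subgroupOf H) ⟨y, hyH⟩) : Prop :=
  ∀ (O : ValuationSubring ℂ) (D : Subgroup G) (B : Set (G → ℂ)) (b : Set (H → ℂ))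
    (b₀ : Set (Subgroup.normalizer (D : Set G) → ℂ)), Blocks p O N y H D B b b₀ →
    (∀ χ ∈ Irr0 p D B, ∃ χ' : Above N y, χ'.1 = χ) ∧
    (∀ ψ ∈ Irr0 p (D.subgroupOf H) b, ∃ ψ' : Above (N.subgroupOf H) ⟨y, hyH⟩, ψ'.1 = ψ) ∧
    ∀ χ, χ.1 ∈ Irr0 p D B ↔ (f χ).1 ∈ Irr0 p (D.subgroupOf H) b

/-- For every `χ` there is a sign `ε` such that
* `χ(k) ≡ ε (f χ)(k)` for all `k ∈ H` which commute with some `p`-element of `N⟨y⟩ ∩ H` outside `N`,
  modulo the maximal ideal of every valuation ring of `ℂ` whose maximal ideal contains `p`;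
* `χ(1)_{p'} ≡ ε |G : H| (f χ)(1)_{p'}` modulo `p` if `χ ∈ Irr_0(B)` for blocks `B`, `b` as in
  `Blocks`. -/
def Congruent {G : Type} [Group G] [Fintype G] {N H : Subgroup G} [N.Normal] {y : G}
    {hyH : y ∈ H} (p : ℕ) (f : Above N y ≃ Above (N.subgroupOf H) ⟨y, hyH⟩) : Prop :=
  ∀ χ, ∃ ε : ℤ, (ε = 1 ∨ ε = -1) ∧
    (∀ z ∈ H, z ∈ N ⊔ Subgroup.zpowers y → z ∉ N → (∃ j, z ^ p ^ j = 1) →
      ∀ O : ValuationSubring ℂ, (p : ℂ) ∈ O.nonunits →
        ∀ k : H, Commute z (k : G) → χ.1 k - ε * (f χ).1 k ∈ O.nonunits) ∧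
    ∀ (O : ValuationSubring ℂ) (D : Subgroup G) (B : Set (G → ℂ)) (b : Set (H → ℂ))
      (b₀ : Set (Subgroup.normalizer (D : Set G) → ℂ)), Blocks p O N y H D B b b₀ →
      χ.1 ∈ Irr0 p D B → ∀ n m : ℕ, (n : ℂ) = χ.1 1 → (m : ℂ) = (f χ).1 1 →
        (pPrimePart p n : ℤ) ≡ ε * (H.index * pPrimePart p m) [ZMOD p]

/-- There are a bijection `F` from the `y`-invariant irreducible characters of `N` onto those of
`N ∩ H` and a bijection `f` from the irreducible characters of `G` over `y`-invariant characters of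
`N` onto those of `H` over `y`-invariant characters of `N ∩ H` with the following properties. -/
def Bijections {G : Type} [Group G] [Fintype G] (p : ℕ) (N H : Subgroup G) [N.Normal] (y : G)
    (hyH : y ∈ H) : Prop :=
  ∃ (F : Inv N y ≃ Inv (N.subgroupOf H) ⟨y, hyH⟩)
    (f : Above N y ≃ Above (N.subgroupOf H) ⟨y, hyH⟩),
    EquivariantN F ∧ Equivariant f ∧ Corresponding F ∧ Compatible F f ∧ BlockWise p f ∧
      Congruent p f

/-- The conclusion of the Alperin–McKay–Navarro conjecture for the block `B` with defect group `D`,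
its Brauer correspondent `b₀` in `N_G(D)` and the set `S` of field automorphisms: there is a
bijection `g : Irr_0(B) → Irr_0(b₀)` with `g(χ^σ) = g(χ)^σ` if `σ ∈ S` and `χ^σ ∈ B`. -/
def AMN (p : ℕ) (S : Set (ℂ ≃+* ℂ)) {G : Type} [Group G] (D : Subgroup G) (B : Set (G → ℂ))
    (b₀ : Set (Subgroup.normalizer (D : Set G) → ℂ)) : Prop :=
  ∃ g : Irr0 p D B ≃ Irr0 p (D.subgroupOf (Subgroup.normalizer (D : Set G))) b₀,
    ∀ σ ∈ S, ∀ χ : Irr0 p D B, (fun x => σ ((χ : G → ℂ) x)) ∈ B →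
      ∃ h : (fun x => σ ((χ : G → ℂ) x)) ∈ Irr0 p D B,
        (g ⟨fun x => σ ((χ : G → ℂ) x), h⟩ : Subgroup.normalizer (D : Set G) → ℂ) =
          fun k => σ ((g χ : Subgroup.normalizer (D : Set G) → ℂ) k)

theorem ov_iff {G : Type} [Group G] [Fintype G] {N : Subgroup G} {χ : G → ℂ} {θ : N → ℂ} :
    LiesOver N χ θ ↔ Pool.Agent.Q17.TC.Ov N χ θ := by
  unfold LiesOver Pool.Agent.Q17.TC.Ov Pool.Agent.Helper884.IC.B
  rw [ne_eq, ne_eq, mul_eq_zero, inv_eq_zero]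
  constructor
  · intro h h1
    rcases h1 with h1 | h1
    · exact Pool.Agent.Helper884.IC.cardG_ne h1
    · exact h h1
  · intro h h1
    exact h (Or.inr h1)

/-- comparison of the two definitions -/
def cmp {G : Type} [Group G] [Fintype G] (N : Subgroup G) [N.Normal] (y : G) :
    Above N y ≃ Pool.Agent.Q17.TC.Ab N y where
  toFun χ := ⟨χ.1, χ.2.1, by
    obtain ⟨θ, hθ⟩ := χ.2.2
    exact ⟨θ, ov_iff.mp hθ⟩⟩
  invFun χ := ⟨χ.1, χ.2.1, by
    obtain ⟨θ, hθ⟩ := χ.2.2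
    exact ⟨θ, ov_iff.mpr hθ⟩⟩
  left_inv _ := rfl
  right_inv _ := rfl

theorem lift_eq {G : Type} [Group G] {H D : Subgroup G} (hD : D ≤ H) (hN : NN D ≤ H)
    (b₀ : Set (NN D → ℂ)) : lift H D b₀ = Pool.Agent.Q17.TC.lft hD hN b₀ := by
  ext θ
  constructor
  · rintro ⟨θ₀, h1, h2⟩
    exact ⟨θ₀, h1, funext fun x => h2 x (Pool.Agent.Q17.TC.eN hD hN x) rfl⟩
  · rintro ⟨θ₀, h1, rfl⟩
    refine ⟨θ₀, h1, fun x x' hx => ?_⟩
    have h3 : Pool.Agent.Q17.TC.eN hD hN x = x' := Subtype.ext hx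
    exact congrArg θ₀ h3

theorem index_DD {G : Type} [Group G] {H D : Subgroup G} (hD : D ≤ H) (hN : NN D ≤ H) :
    (DD (D.subgroupOf H)).index = (DD D).index := by
  have h1 : DD (D.subgroupOf H) = (DD D).comap (Pool.Agent.Q17.TC.eN hD hN).toMonoidHom := by
    ext x
    rfl
  rw [h1]
  exact Subgroup.index_comap_of_surjective _ (Pool.Agent.Q17.TC.eN hD hN).surjective

/-- comparison of `Irr_0` for `N_G(D)` and `N_H(D)` -/
def trn {G : Type} [Group G] {p : ℕ} {H D : Subgroup G} (hD : D ≤ H) (hN : NN D ≤ H)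
    (b₀ : Set (NN D → ℂ)) :
    Irr0 p (DD D) b₀ ≃ Irr0 p (DD (D.subgroupOf H)) (lift H D b₀) where
  toFun θ := ⟨fun x => (θ : NN D → ℂ) (Pool.Agent.Q17.TC.eN hD hN x), by
    obtain ⟨h1, n, h2, h3⟩ := θ.2
    refine ⟨?_, n, ?_, ?_⟩
    · rw [lift_eq hD hN]
      exact ⟨θ, h1, rfl⟩
    · change (n : ℂ) = (θ : NN D → ℂ) (Pool.Agent.Q17.TC.eN hD hN 1)
      rw [map_one]
      exact h2
    · rw [index_DD hD hN]
      exact h3⟩
  invFun θ := ⟨fun x => (θ : NN (D.subgroupOf H) → ℂ) ((Pool.Agent.Q17.TC.eN hD hN).symm x), by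
    obtain ⟨⟨θ₀, h4, h5⟩, n, h2, h3⟩ := θ.2
    refine ⟨?_, n, ?_, ?_⟩
    · have h6 : (fun x => (θ : NN (D.subgroupOf H) → ℂ)
          ((Pool.Agent.Q17.TC.eN hD hN).symm x)) = θ₀ := by
        funext x
        exact h5 ((Pool.Agent.Q17.TC.eN hD hN).symm x) x rfl
      rw [h6]
      exact h4
    · change (n : ℂ) = (θ : NN (D.subgroupOf H) → ℂ) ((Pool.Agent.Q17.TC.eN hD hN).symm 1)
      rw [map_one]
      exact h2
    · rw [index_DD hD hN] at h3
      exact h3⟩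
  left_inv _ := rfl
  right_inv _ := rfl

theorem gal0 {G : Type} [Group G] {p : ℕ} {D : Subgroup G} {B : Set (G → ℂ)} {σ : ℂ ≃+* ℂ}
    {χ : G → ℂ} (hχ : χ ∈ Irr0 p D B) (h : (fun x => σ (χ x)) ∈ B) :
    (fun x => σ (χ x)) ∈ Irr0 p D B := by
  obtain ⟨-, n, h2, h3⟩ := hχ
  refine ⟨h, n, ?_, h3⟩
  change (n : ℂ) = σ (χ 1)
  rw [← h2, map_natCast]

/-- the bijection of the characters of height zero given by a bijection as in `BlockWise` -/
theorem res0 {G : Type} [Group G] [Fintype G] {p : ℕ} {O : ValuationSubring ℂ}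
    {N H : Subgroup G} [N.Normal] {y : G} {hyH : y ∈ H}
    {f : Above N y ≃ Above (N.subgroupOf H) ⟨y, hyH⟩} (he : Equivariant f) (hf : BlockWise p f)
    {D : Subgroup G} {B : Set (G → ℂ)} {b : Set (H → ℂ)}
    {b₀ : Set (Subgroup.normalizer (D : Set G) → ℂ)} (hb : Blocks p O N y H D B b b₀) :
    ∃ g : Irr0 p D B ≃ Irr0 p (D.subgroupOf H) b, ∀ (σ : ℂ ≃+* ℂ) (χ : Irr0 p D B),
      ((fun x => σ ((χ : G → ℂ) x)) ∈ B ↔ (fun x => σ ((g χ : H → ℂ) x)) ∈ b) ∧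
      ∀ h : (fun x => σ ((χ : G → ℂ) x)) ∈ Irr0 p D B,
        (g ⟨fun x => σ ((χ : G → ℂ) x), h⟩ : H → ℂ) = fun k => σ ((g χ : H → ℂ) k) := by
  obtain ⟨h1, h2, h3⟩ := hf O D B b b₀ hb
  let A : Irr0 p D B → Above N y := fun χ => (h1 χ.1 χ.2).choose
  have hA : ∀ χ, (A χ).1 = (χ : G → ℂ) := fun χ => (h1 χ.1 χ.2).choose_spec
  let C : Irr0 p (D.subgroupOf H) b → Above (N.subgroupOf H) ⟨y, hyH⟩ :=
    fun ψ => (h2 ψ.1 ψ.2).choose
  have hC : ∀ ψ, (C ψ).1 = (ψ : H → ℂ) := fun ψ => (h2 ψ.1 ψ.2).choose_spec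
  have m1 : ∀ χ, (f (A χ)).1 ∈ Irr0 p (D.subgroupOf H) b := fun χ => (h3 (A χ)).mp (by
    rw [hA]
    exact χ.2)
  have m2 : ∀ ψ, (f.symm (C ψ)).1 ∈ Irr0 p D B := fun ψ => (h3 (f.symm (C ψ))).mpr (by
    rw [Equiv.apply_symm_apply, hC]
    exact ψ.2)
  let g : Irr0 p D B ≃ Irr0 p (D.subgroupOf H) b :=
    { toFun := fun χ => ⟨(f (A χ)).1, m1 χ⟩
      invFun := fun ψ => ⟨(f.symm (C ψ)).1, m2 ψ⟩
      left_inv := by
        intro χ
        apply Subtype.ext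
        have h4 : C ⟨(f (A χ)).1, m1 χ⟩ = f (A χ) := Subtype.ext (hC _)
        change (f.symm (C ⟨(f (A χ)).1, m1 χ⟩)).1 = _
        rw [h4, Equiv.symm_apply_apply, hA]
      right_inv := by
        intro ψ
        apply Subtype.ext
        have h4 : A ⟨(f.symm (C ψ)).1, m2 ψ⟩ = f.symm (C ψ) := Subtype.ext (hA _)
        change (f (A ⟨(f.symm (C ψ)).1, m2 ψ⟩)).1 = _
        rw [h4, Equiv.apply_symm_apply, hC] }
  have hid : Stabilises N H y (MulEquiv.refl G) := ⟨fun _ => Iff.rfl, fun _ => Iff.rfl, by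
    change y⁻¹ * y ∈ N
    rw [inv_mul_cancel]
    exact N.one_mem⟩
  have key : ∀ (σ : ℂ ≃+* ℂ) (χ : Irr0 p D B) (h : (fun x => σ ((χ : G → ℂ) x)) ∈ Irr0 p D B),
      (g ⟨fun x => σ ((χ : G → ℂ) x), h⟩ : H → ℂ) = fun k => σ ((g χ : H → ℂ) k) := by
    intro σ χ h
    funext k
    refine he σ (MulEquiv.refl G) hid (A χ) (A ⟨fun x => σ ((χ : G → ℂ) x), h⟩) (fun x => ?_) k k rfl
    rw [hA, hA]
    rfl
  refine ⟨g, fun σ χ => ⟨⟨fun h => ?_, fun h => ?_⟩, key σ χ⟩⟩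
  · have h4 := key σ χ (gal0 χ.2 h)
    rw [← h4]
    exact (g _).2.1
  · -- the inverse is equivariant too
    have h4 := gal0 (g χ).2 h
    have h5 : ∃ χ' : Above N y, χ'.1 = fun x => σ ((χ : G → ℂ) x) := by
      obtain ⟨i1, θ, hθ⟩ := (A χ).2
      rw [hA] at i1 hθ
      refine ⟨⟨fun x => σ ((χ : G → ℂ) x), Pool.Agent.Q17.TC.irr_gal σ i1,
        ⟨fun n => σ (θ.1 n), Pool.Agent.Q17.TC.irr_gal σ θ.2.1, fun n => ?_⟩, ?_⟩, rfl⟩
      · change σ (θ.1 _) = σ (θ.1 n)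
        rw [θ.2.2]
      · unfold LiesOver at hθ ⊢
        intro h6
        apply hθ
        have h7 : ∑ n : N, (fun x => σ ((χ : G → ℂ) x)) n * (fun n => σ (θ.1 n)) n⁻¹ =
            σ (∑ n : N, (χ : G → ℂ) n * θ.1 n⁻¹) := by
          rw [map_sum]
          exact Finset.sum_congr rfl fun n _ => (map_mul σ _ _).symm
        change ∑ n : N, (fun x => σ ((χ : G → ℂ) x)) n * (fun n => σ (θ.1 n)) n⁻¹ = 0 at h6
        rw [h7, map_eq_zero] at h6
        exact h6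
    obtain ⟨χ', h6⟩ := h5
    have h7 : (f χ').1 = fun k => σ ((g χ : H → ℂ) k) := by
      funext k
      refine he σ (MulEquiv.refl G) hid (A χ) χ' (fun x => ?_) k k rfl
      rw [h6, hA]
      rfl
    have h8 : χ'.1 ∈ Irr0 p D B := (h3 χ').mpr (by
      rw [h7]
      exact h4)
    rw [h6] at h8
    exact h8.1

/-- **Theorem.** Let `G` be a finite group, `N` a normal subgroup, `P` a Sylow `p`-subgroup of `G`
and `y ∈ P ∖ N` with `y ^ p ∈ N` and `[G, y] ≤ N` (so `G / N` is arbitrary, with a central subgroup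
of order `p`). Let `H ≥ P` be a subgroup with `G = NH` and `C_N(x) ≤ H` for all `x ∈ P ∩ yN`. Then
(1) every `p`-subgroup `D` of `G` with `D ∩ N⟨y⟩ ⊄ N` is conjugate to a subgroup of `H`, and
`N_G(D) ≤ H` if `D ≤ H`;
(2) there are a bijection `F` from the `y`-invariant irreducible characters of `N` onto those of
`N ∩ H` and a bijection `f` from the irreducible characters of `G` over `y`-invariant characters of
`N` onto those of `H` over `y`-invariant characters of `N ∩ H`, such that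
(a) `F` and `f` commute with all automorphisms of `ℂ` and with all automorphisms of `G` which
stabilise `N`, `H` and `yN`;
(b) `θ` and `F θ` have extensions to `N⟨y⟩` and `N⟨y⟩ ∩ H` that agree up to a sign outside `N`;
(c) `χ` lies over `θ` if and only if `f χ` lies over `F θ`, and then
`χ(1) / θ(1) = (f χ)(1) / (F θ)(1)`;
(d) `f` restricts to a bijection `Irr_0(B) → Irr_0(b)` for every block `B` of `G` with a defect
group `D ≤ H` with `D ∩ N⟨y⟩ ⊄ N` and every block `b` of `H` with defect group `D` and the same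
Brauer correspondent in `N_G(D) = N_H(D)`;
(e) for every `χ` there is a sign `ε` with `χ(k) ≡ ε (f χ)(k)` modulo all maximal ideals above `p`
for all `k ∈ H` which commute with a `p`-element of `N⟨y⟩ ∩ H` outside `N`, and with
`χ(1)_{p'} ≡ ε |G : H| (f χ)(1)_{p'}` modulo `p` if `χ ∈ Irr_0(B)`, `B` as in (d);
(3) for `B`, `b` as in (d), `b₀` their Brauer correspondent and every set `S` of automorphisms of
`ℂ`, the Alperin–McKay–Navarro conjecture with `S` holds for `(G, B)` if and only if it holds for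
`(H, b)`;
(4) if `B` is a block of `G` with defect group `D`, `D ∩ N⟨y⟩ ⊄ N`, and the assumptions on `H` hold
for `N_G(D)`, then the Alperin–McKay–Navarro conjecture holds for `B` with all automorphisms of
`ℂ`. -/
theorem result (G : Type) [Group G] [Fintype G] (p : ℕ) [Fact p.Prime] (N H : Subgroup G)
    [N.Normal] (P : Sylow p G) (y : G) (hyp : Hyp p N y P H) (hyH : y ∈ H) :
    (∀ D : Subgroup G, IsPGroup p D → (∃ z ∈ D, z ∈ N ⊔ Subgroup.zpowers y ∧ z ∉ N) →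
      (∃ g : G, ∀ x ∈ D, g⁻¹ * x * g ∈ H) ∧
        (D ≤ H → Subgroup.normalizer (D : Set G) ≤ H)) ∧
    Bijections p N H y hyH ∧
    (∀ (O : ValuationSubring ℂ) (D : Subgroup G) (B : Set (G → ℂ)) (b : Set (H → ℂ))
      (b₀ : Set (Subgroup.normalizer (D : Set G) → ℂ)), Blocks p O N y H D B b b₀ →
      ∀ S : Set (ℂ ≃+* ℂ), AMN p S D B b₀ ↔ AMN p S (D.subgroupOf H) b (lift H D b₀)) ∧
    ∀ (O : ValuationSubring ℂ) (D : Subgroup G) (B : Set (G → ℂ))
      (b₀ : Set (Subgroup.normalizer (D : Set G) → ℂ)), (p : ℂ) ∈ O.nonunits → IsBlock O B →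
      IsDefectGroup p O B D → IsBrauerCorrespondent p O D B b₀ →
      (∃ z ∈ D, z ∈ N ⊔ Subgroup.zpowers y ∧ z ∉ N) →
      Hyp p N y P (Subgroup.normalizer (D : Set G)) → AMN p Set.univ D B b₀ := by
  have toTD : ∀ {L : Subgroup G}, Hyp p N y P L → Pool.Agent.Q17.TC.TD p N y L P :=
    fun {L} h => ⟨inferInstance, h.1.2.1, h.1.2.2.1, h.1.2.2.2, h.1.1, h.2.1, h.2.2.1, h.2.2.2⟩
  have d := toTD hyp
  have ti := Pool.Agent.Q17.TC.parts.ti
  have hNN : ∀ {L : Subgroup G}, Pool.Agent.Q17.TC.TD p N y L P → ∀ D : Subgroup G,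
      (∃ z ∈ D, z ∈ N ⊔ Subgroup.zpowers y ∧ z ∉ N) → D ≤ L →
      Subgroup.normalizer (D : Set G) ≤ L := by
    rintro L d' D ⟨z, hz, hzK, hzN⟩ hDL g hg
    have h1 := (Subgroup.mem_normalizer_iff.mp ((NN D).inv_mem hg) z).mp hz
    rw [inv_inv] at h1
    exact (ti G p N y L P d').1 g z (hDL hz) hzK hzN (hDL h1)
  have key : ∀ {L : Subgroup G} (d' : Pool.Agent.Q17.TC.TD p N y L P) (hyL : y ∈ L),
      Bijections p N L y hyL := by
    intro L d' hyL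
    obtain ⟨F, f, s, h1, h2, h3, h4, h5, h6, h7, h8⟩ := Pool.Agent.Q17.TC.main3
      Pool.Agent.Q17.TC.parts2 Pool.Agent.Q222.TC.t_CM Pool.Agent.Q222.TC.t_INT
      Pool.Agent.Q17.TC.gdx d'
    have bt : ∀ (O : ValuationSubring ℂ) (D : Subgroup G) (B : Set (G → ℂ)) (b : Set (L → ℂ))
        (b₀ : Set (Subgroup.normalizer (D : Set G) → ℂ)), Blocks p O N y L D B b b₀ →
        ∃ (z : G) (hDL : D ≤ L) (hN : NN D ≤ L), z ∈ N ⊔ Subgroup.zpowers y ∧ z ∉ N ∧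
          Pool.Agent.Q17.TC.BT p O z L D hDL hN B b b₀ := by
      rintro O D B b b₀ ⟨a1, a2, a3, ⟨a4, a5, a6⟩, a7, a8, a9⟩
      have hN := hNN d' D a3 a2
      obtain ⟨z, hz, hzK, hzN⟩ := a3
      refine ⟨z, a2, hN, hzK, hzN, a1, hz, a4, a5, a6, a7, a8, ?_⟩
      rw [← lift_eq]
      exact a9
    refine ⟨F, (cmp N y).trans (f.trans (cmp (N.subgroupOf L) ⟨y, hyL⟩).symm), ?_, ?_, ?_,
      ⟨?_, ?_⟩, ?_, ?_⟩
    · intro σ α hα
      exact h2 σ α ⟨hα.1, hα.2.1, hα.2.2⟩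
    · intro σ α hα χ χ' h9
      exact h5 σ α ⟨hα.1, hα.2.1, hα.2.2⟩ (cmp N y χ) (cmp N y χ') h9
    · intro θ
      obtain ⟨θ', η', ε', r⟩ := h1 θ
      refine ⟨θ', η', ε', r.ext, r.ext', fun n hn => r.res n, fun m hm => r.res' m, ?_,
        fun h hk hk' hn => r.val h hk hn⟩
      rcases r.sgn with h | h
      · exact Or.inl h
      · exact Or.inr h.1
    · intro χ θ
      exact ov_iff.trans ((h3 (cmp N y χ) θ).trans ov_iff.symm)
    · intro χ θ ho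
      have h7 := h4 (cmp N y χ) θ (ov_iff.mp ho)
      have h8 : θ.1 1 ≠ 0 := θ.2.1.one_ne
      have h9 : (F θ).1 1 ≠ 0 := (F θ).2.1.one_ne
      exact (div_eq_div_iff h9 h8).mpr h7
    · intro O D B b b₀ hb
      obtain ⟨z, hDL, hN, hzK, hzN, e⟩ := bt O D B b b₀ hb
      obtain ⟨i1, i2, i3⟩ := h8 O z D hDL hN B b b₀ e hzK hzN
      refine ⟨fun χ hχ => ?_, fun ψ hψ => ?_, fun χ => (i3 (cmp N y χ)).1⟩
      · obtain ⟨χ', h9⟩ := i1 χ hχ
        exact ⟨(cmp N y).symm χ', h9⟩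
      · obtain ⟨ψ', h9⟩ := i2 ψ hψ
        exact ⟨(cmp (N.subgroupOf L) ⟨y, hyL⟩).symm ψ', h9⟩
    · intro χ
      refine ⟨s (cmp N y χ), ?_, ?_, ?_⟩
      · rcases h6 (cmp N y χ) with h | h
        · exact Or.inl h
        · exact Or.inr h.1
      · intro z hz hzK hzN ho O hO k hk
        exact h7 (cmp N y χ) z hz hzK hzN ho O hO k hk
      · intro O D B b b₀ hb
        obtain ⟨z, hDL, hN, hzK, hzN, e⟩ := bt O D B b b₀ hb
        obtain ⟨-, -, i3⟩ := h8 O z D hDL hN B b b₀ e hzK hzN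
        exact (i3 (cmp N y χ)).2
  refine ⟨?_, key d hyH, ?_, ?_⟩
  · rintro D hD ⟨z, hz, hzK, hzN⟩
    refine ⟨?_, hNN d D ⟨z, hz, hzK, hzN⟩⟩
    obtain ⟨Q, hQ⟩ := hD.exists_le_sylow
    obtain ⟨g, hg⟩ := MulAction.exists_smul_eq G P Q
    refine ⟨g, fun x hx => ?_⟩
    have h1 : x ∈ Q := hQ hx
    rw [← hg, ← SetLike.mem_coe, Sylow.coe_smul, Set.mem_smul_set] at h1
    obtain ⟨w, hw, rfl⟩ := h1
    have h2 : g⁻¹ * (MulAut.conj g • w) * g = w := by
      change g⁻¹ * (g * w * g⁻¹) * g = w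
      group
    rw [h2]
    exact d.hPH hw
  · intro O D B b b₀ hb S
    obtain ⟨F, f, -, h1, -, -, h2, -⟩ := key d hyH
    obtain ⟨g, hg⟩ := res0 h1 h2 hb
    have hDH := hb.2.1
    have hN := hNN d D hb.2.2.1 hDH
    constructor
    · rintro ⟨k, hk⟩
      refine ⟨g.symm.trans (k.trans (trn hDH hN b₀)), fun σ hσ ψ hψ => ?_⟩
      obtain ⟨χ, rfl⟩ := g.surjective ψ
      have h3 := (hg σ χ).1.mpr hψ
      obtain ⟨h4, h5⟩ := hk σ hσ χ h3
      have h6 := (hg σ χ).2 h4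
      have h7 := gal0 (g χ).2 hψ
      refine ⟨h7, ?_⟩
      have h8 : g.symm ⟨fun x => σ ((g χ : H → ℂ) x), h7⟩ = ⟨fun x => σ ((χ : G → ℂ) x), h4⟩ := by
        rw [Equiv.symm_apply_eq]
        exact Subtype.ext h6.symm
      change (trn hDH hN b₀ (k (g.symm ⟨fun x => σ ((g χ : H → ℂ) x), h7⟩))).1 =
        fun l => σ ((trn hDH hN b₀ (k (g.symm (g χ)))).1 l)
      rw [h8, Equiv.symm_apply_apply]
      funext l
      exact congrFun h5 (Pool.Agent.Q17.TC.eN hDH hN l)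
    · rintro ⟨k, hk⟩
      refine ⟨g.trans (k.trans (trn hDH hN b₀).symm), fun σ hσ χ hχ => ?_⟩
      have h3 := (hg σ χ).1.mp hχ
      obtain ⟨h4, h5⟩ := hk σ hσ (g χ) h3
      have h6 := gal0 χ.2 hχ
      have h7 := (hg σ χ).2 h6
      refine ⟨h6, ?_⟩
      have h8 : g ⟨fun x => σ ((χ : G → ℂ) x), h6⟩ = ⟨fun x => σ ((g χ : H → ℂ) x), h4⟩ :=
        Subtype.ext h7
      change ((trn hDH hN b₀).symm (k (g ⟨fun x => σ ((χ : G → ℂ) x), h6⟩))).1 =
        fun l => σ (((trn hDH hN b₀).symm (k (g χ))).1 l)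
      rw [h8]
      funext l
      exact congrFun h5 ((Pool.Agent.Q17.TC.eN hDH hN).symm l)
  · intro O D B b₀ hO hB hD hb₀ hz hyp'
    have d' := toTD hyp'
    obtain ⟨F, f, -, h1, -, -, h2, -⟩ := key d' d'.hyH
    have hDH : D ≤ NN D := le_NN D
    have hbl : Blocks p O N y (NN D) D B b₀ b₀ := by
      refine ⟨hO, hDH, hz, ⟨hB, hD, hb₀⟩, hb₀.1, hb₀.2.1, ?_⟩
      have h3 := Pool.Agent.Q222.TC.t_TBC G p O hO D b₀ hb₀.1 hb₀.2.1
      rw [lift_eq (le_NN D) le_rfl]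
      exact h3
    obtain ⟨g, hg⟩ := res0 h1 h2 hbl
    refine ⟨g, fun σ _ χ hχ => ?_⟩
    have h3 := gal0 χ.2 hχ
    exact ⟨h3, (hg σ χ).2 h3⟩

end Pool.Agent.Results.MP_7f1e7e_al.RelativeBlocks
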